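import Pool.Agent.Helper93.HZ.Blow
import Pool.Agent.Helper93.HZ.Lib

/-! # HZ: CNT (6.4 COUNT) -/

set_option autoImplicit false

open MulAction Pointwise

namespace Pool.Agent.Helper93.HZ

open Ctx

theorem cnt_fix_unique (hTFC : ST_TFC) {U : Type} {T : SimpleGraph U} (hT : T.IsTree)
    {N : U → U} (hN : IsField T N) {u w : U} (hu : N u = u) (hw : N w = w) : u = w := by
  obtain ⟨h1, -⟩ := hTFC U T hT N N hN hN
  obtain ⟨k, hk | hk⟩ := h1 u w (fun _ => hu) (fun _ => hw)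
  · rw [Function.iterate_fixed hu] at hk
    exact hk.symm
  · rw [Function.iterate_fixed hu] at hk
    exact hk.symm

variable {G : Type} [Group G] (X : Ctx G)

theorem cnt_FC2_symm {X : Ctx G} {x y : X.V} (h : X.FC2 x y) : X.FC2 y x :=
  ⟨X.K.symm _ _ h.1, h.2.1.symm, fun e => h.2.2 e.symm⟩

theorem cnt_FC2_smul {X : Ctx G} {x y : X.V} (g : G) (h : X.FC2 x y) : X.FC2 (g • x) (g • y) :=
  ⟨X.K.smul_adj g _ _ h.1, Fr_smul g h.2.1, fun e => h.2.2 ((X.P.N_eq_smul g).1 e)⟩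

/-- the map from segment nodes to point nodes -/
noncomputable def cntF (X : Ctx G) : X.NS → X.NP
  | .inl (x, y, u) => .inl (x, y, u, X.P.N y u)
  | .inr c => .inr c

theorem cntF_inj : Function.Injective (cntF X) := by
  rintro (⟨x, y, u⟩ | c) (⟨x', y', u'⟩ | c') h
  · have h1 : (x, y, u, X.P.N y u) = (x', y', u', X.P.N y' u') := Sum.inl.inj h
    obtain ⟨rfl, h2⟩ := Prod.ext_iff.1 h1
    obtain ⟨rfl, h3⟩ := Prod.ext_iff.1 h2
    obtain ⟨rfl, -⟩ := Prod.ext_iff.1 h3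
    rfl
  · cases h
  · cases h
  · exact congrArg Sum.inr (Sum.inr.inj h)

theorem cntF_smul (g : G) (n : X.NS) : cntF X (g • n) = g • cntF X n := by
  rcases n with ⟨x, y, u⟩ | c
  · show (Sum.inl (g • x, g • y, g • u, X.P.N (g • y) (g • u)) : X.NP) =
      Sum.inl (g • x, g • y, g • u, g • X.P.N y u)
    rw [X.P.eN]
  · rfl

theorem st_CNT (hHON : ST_HON) (hTFC : ST_TFC) (hGRS : ST_GRS) : ST_CNT := by
  intro G _ X
  have fS : FinOrb G X.NSs := (hGRS G X).finX
  set S2 : Set X.NS := {n | ∃ x y, X.FC2 x y ∧ n = .inl (x, y, X.Q.Q y x)} with hS2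
  set S1 : Set X.NS := {n | n ∈ X.NSs ∧ n ∉ S2} with hS1
  have hQ : ∀ {x y : X.V} (g : G), X.FC2 x y → X.Q.Q (g • y) (g • x) = g • X.Q.Q y x :=
    fun g h => X.Q.eq g _ _ (X.K.symm _ _ h.1) h.2.1.symm
  have hS2s : ∀ (g : G) n, n ∈ S2 → g • n ∈ S2 := by
    rintro g _ ⟨x, y, h, rfl⟩
    refine ⟨g • x, g • y, cnt_FC2_smul g h, ?_⟩
    rw [hQ g h]
    rfl
  have hsub2 : S2 ⊆ X.NSs := by
    rintro _ ⟨x, y, h, rfl⟩
    obtain ⟨h1, -, -, h4, -⟩ := hHON G X x y h
    obtain ⟨-, -, -, -, h5, -⟩ := hHON G X y x (cnt_FC2_symm h)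
    have h6 : X.Hon x y (X.Q.Q y x) := (h4 _).2 h5
    exact ⟨h, (h1 _).2 (Or.inl h6), h6⟩
  have hun : X.NSs = S1 ∪ S2 := by
    ext n
    constructor
    · intro h
      by_cases h' : n ∈ S2
      · exact Or.inr h'
      · exact Or.inl ⟨h, h'⟩
    · rintro (h | h)
      · exact h.1
      · exact hsub2 h
  have himg : cntF X '' S1 = X.NPs := by
    ext n
    constructor
    · rintro ⟨m, ⟨hm, hm2⟩, rfl⟩
      rcases m with ⟨x, y, u⟩ | ⟨C, u, w⟩
      · obtain ⟨h, hI, hH⟩ := hm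
        obtain ⟨h1, h2, h3, h4, h5, h6, h7, h8, h9, h10, h11⟩ := hHON G X x y h
        have hne : u ≠ X.Q.Q y x := fun e => hm2 ⟨x, y, h, by rw [e]⟩
        have hNy : X.P.N y u ≠ u := by
          intro e
          by_cases hy : EllV X.D X.K y
          · exact hne (cnt_fix_unique hTFC X.D.tree (X.P.fN y) e
              (X.Q.ell y x (X.K.symm _ _ h.1) hy))
          · exact (X.P.hyp y hy).1 u e
        have hadj : X.D.T.Adj u (X.P.N y u) := by
          rcases (X.P.fN y).1 u with h | h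
          · exact absurd h hNy
          · exact h
        have hNx : X.P.N x (X.P.N y u) = u := by
          by_contra hc
          have := ((X.P.fN x).2 u (X.P.N y u) hadj).2 hc
          have h12 := hI this
          exact hNy (this.symm.trans h12)
        exact ⟨h, ⟨hadj, hNx, rfl⟩, hH, h11 u hH hNy hne⟩
      · exact hm
    · intro hn
      rcases n with ⟨x, y, u, w⟩ | ⟨C, u, w⟩
      · obtain ⟨h, ⟨hadj, hNx, hNy⟩, hHu, hHw⟩ := hn
        obtain ⟨h1, h2, h3, h4, h5, h6, h7, h8, h9, h10, h11⟩ := hHON G X x y h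
        refine ⟨.inl (x, y, u), ⟨⟨h, (h1 u).2 (Or.inl hHu), hHu⟩, ?_⟩, ?_⟩
        · rintro ⟨x', y', h', he⟩
          have he1 : (x, y, u) = (x', y', X.Q.Q y' x') := Sum.inl.inj he
          obtain ⟨rfl, he2⟩ := Prod.ext_iff.1 he1
          obtain ⟨rfl, he3⟩ := Prod.ext_iff.1 he2
          simp only at he3
          by_cases hy : EllV X.D X.K y
          · have := X.Q.ell y x (X.K.symm _ _ h.1) hy
            rw [← he3, hNy] at this
            rw [this] at hadj
            exact X.D.T.irrefl hadj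
          · obtain ⟨-, h2', -⟩ := hHON G X y x (cnt_FC2_symm h)
            refine h2' w ((h4 w).1 hHw) ⟨hy, 0, ?_⟩
            rw [← he3]
            exact hNy.symm
        · show (Sum.inl (x, y, u, X.P.N y u) : X.NP) = Sum.inl (x, y, u, w)
          rw [hNy]
      · refine ⟨.inr (C, u, w), ⟨hn, ?_⟩, rfl⟩
        rintro ⟨x', y', h', he⟩
        cases he
  have fS1 : FinOrb G S1 := fS.mono (fun n h => h.1)
  have fS2 : FinOrb G S2 := fS.mono hsub2
  rw [hun, oc_union fS1 fS2, ← himg, oc_image_inj (cntF X) (cntF_inj X) (cntF_smul X)]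
  · congr 1
    have fE : FinOrb G {p : X.V × X.V | X.FC2 p.1 p.2} := X.K.finE.mono (fun p h => h.1)
    refine le_antisymm ?_ ?_
    · refine (oc_le_rel (fun (n : X.NS) (p : X.V × X.V) => n = .inl (p.1, p.2, X.Q.Q p.2 p.1))
        fE ?_ ?_).2
      · rintro n ⟨x, y, h, rfl⟩
        exact ⟨(x, y), h, rfl⟩
      · rintro _ _ _ _ ⟨x, y⟩ h ⟨x', y'⟩ h' rfl rfl g hg
        refine ⟨g, ?_⟩
        have e1 : g • x = x' := congrArg Prod.fst hg
        have e2 : g • y = y' := congrArg Prod.snd hg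
        subst e1
        subst e2
        show (Sum.inl (g • x, g • y, g • X.Q.Q y x) : X.NS) = Sum.inl (g • x, g • y,
          X.Q.Q (g • y) (g • x))
        rw [hQ g h]
    · refine (oc_le_rel (fun (p : X.V × X.V) (n : X.NS) => n = .inl (p.1, p.2, X.Q.Q p.2 p.1))
        fS2 ?_ ?_).2
      · rintro ⟨x, y⟩ h
        exact ⟨_, ⟨x, y, h, rfl⟩, rfl⟩
      · rintro ⟨x, y⟩ h ⟨x', y'⟩ h' _ _ _ _ rfl rfl g hg
        refine ⟨g, ?_⟩
        have e := Sum.inl.inj hg
        obtain ⟨e1, e2⟩ := Prod.ext_iff.1 e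
        obtain ⟨e3, -⟩ := Prod.ext_iff.1 e2
        exact Prod.ext e1 e3
  · rintro m ⟨-, hm⟩ n hn g rfl
    apply hm
    have := hS2s g⁻¹ _ hn
    rwa [inv_smul_smul] at this

end Pool.Agent.Helper93.HZ
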