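import Pool.Agent.Helper93.HZ.Blow
import Pool.Agent.Helper93.HZ.Lib

/-! # HZ: KA (6.9) -/

set_option autoImplicit false

open MulAction Pointwise

namespace Pool.Agent.Helper93.HZ

open Ctx

section fields

theorem ka_back {U : Type} {T : SimpleGraph U} {N : U → U} (hN : IsField T N) {u w : U}
    (ha : T.Adj u w) (h : N u ≠ w) : N w = u := by
  by_contra hc
  exact h ((hN.2 u w ha).2 hc)

theorem ka_fwd {U : Type} {T : SimpleGraph U} {N : U → U} (hN : IsField T N) {u w : U}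
    (ha : T.Adj u w) (h : N u = w) : N w ≠ u := (hN.2 u w ha).1 h

theorem ka_adjN {U : Type} {T : SimpleGraph U} {N : U → U} (hN : IsField T N) {u : U}
    (h : N u ≠ u) : T.Adj u (N u) := (hN.1 u).resolve_left h

theorem ka_fix_unique (hTFC : ST_TFC) {U : Type} {T : SimpleGraph U} (hT : T.IsTree)
    {N : U → U} (hN : IsField T N) {u w : U} (hu : N u = u) (hw : N w = w) : u = w := by
  obtain ⟨h1, -⟩ := hTFC U T hT N N hN hN
  obtain ⟨k, hk | hk⟩ := h1 u w (fun _ => hu) (fun _ => hw)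
  · rw [Function.iterate_fixed hu] at hk
    exact hk.symm
  · rw [Function.iterate_fixed hu] at hk
    exact hk.symm

end fields

section cxs

variable {G : Type} [Group G] {D : Setup G} {K : Cx G} (P : Pts D K) (Q : Thr D K P)

theorem ka_tk {τ τ' : Tk D.U K.V} (h : TRel Q τ τ') : tk Q τ = tk Q τ' := by
  unfold tk
  rw [Quot.sound h]

theorem ka_tk_e (u w : D.U) (x y : K.V) : tk Q (.e u w x y) = tk Q (.e w u y x) := by
  rw [ka_tk P Q (TRel.swU u w x y), ka_tk P Q (TRel.swV w u x y)]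

variable {P}

theorem ka_NM {v : K.V} (hv : ¬ EllV D K v) {u : D.U} (h : P.N v u ≠ P.M v u) :
    P.N v (P.M v u) = u :=
  ka_back (P.fN v) (ka_adjN (P.fM v) ((P.hyp v hv).2.1 u)) h

theorem ka_MN {v : K.V} (hv : ¬ EllV D K v) {u : D.U} (h : P.N v u ≠ P.M v u) :
    P.M v (P.N v u) = u :=
  ka_back (P.fM v) (ka_adjN (P.fN v) ((P.hyp v hv).1 u)) (fun e => h e.symm)

theorem ka_Ax1 {v : K.V} (hv : ¬ EllV D K v) {u : D.U} (h : P.N v u ≠ P.M v u) :
    Ax P v u (P.N v u) := ⟨rfl, ka_MN hv h, (P.hyp v hv).1 u⟩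

theorem ka_Ax2 {v : K.V} (hv : ¬ EllV D K v) {u : D.U} (h : P.N v u ≠ P.M v u) :
    Ax P v (P.M v u) u := ⟨ka_NM hv h, rfl, (P.hyp v hv).1 _⟩

variable (P)

include P in
/-- if one vertex is elliptic and the other hyperbolic, the edge is free -/
theorem ka_fr (hTFD : ST_TFD) {x y : K.V} (hx : EllV D K x) (hy : ¬ EllV D K y) : Fr K x y := by
  intro g h1 h2
  by_contra hg
  obtain ⟨u, hu⟩ := hx
  obtain ⟨-, -, ⟨z, k, hz1, hz2, hk, -⟩, -⟩ := P.hyp y hy
  have h3 : g ∈ Subgroup.zpowers z := by rw [← hz1]; exact h2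
  obtain ⟨n, rfl⟩ := Subgroup.mem_zpowers_iff.1 h3
  have hn : n ≠ 0 := by
    rintro rfl
    exact hg (zpow_zero z)
  have h4 : Ell D (z ^ n.natAbs) := by
    refine ⟨u, ?_⟩
    have h5 : z ^ n • u = u := hu _ h1
    rcases Int.natAbs_eq n with h | h
    · rw [h, zpow_natCast] at h5
      exact h5
    · rw [h, zpow_neg, zpow_natCast, inv_smul_eq_iff] at h5
      exact h5.symm
  obtain ⟨w, hw⟩ := (hTFD G D z).1 n.natAbs (Int.natAbs_pos.2 hn) h4
  apply hy
  refine ⟨w, fun g' hg' => ?_⟩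
  have h6 : g' ∈ Subgroup.zpowers z := by rw [← hz1]; exact hg'
  obtain ⟨m, rfl⟩ := Subgroup.mem_zpowers_iff.1 h6
  have h7 : z ∈ stabilizer G w := hw
  exact (stabilizer G w).zpow_mem h7 m

/-- a common stabilizer of two elliptic vertices fixes the path between their points -/
theorem ka_fixI (hTFC : ST_TFC) {x y : K.V} (hx : EllV D K x) (hy : EllV D K y) {g : G}
    (h1 : g • x = x) (h2 : g • y = y) {u : D.U} (hu : OnI (P.N x) (P.N y) u) : g • u = u := by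
  obtain ⟨a, ha⟩ := P.ell x hx
  obtain ⟨b, hb⟩ := P.ell y hy
  have hgb : g • b = b := by
    have h3 := P.eN g y b
    rw [h2, hb] at h3
    exact ka_fix_unique hTFC D.tree (P.fN y) h3 hb
  obtain ⟨h4, -⟩ := hTFC D.U D.T D.tree (P.N x) (P.N y) (P.fN x) (P.fN y)
  obtain ⟨k, hk | hk⟩ := h4 b u (fun e => e.trans hb) hu
  · have h5 := P.N_iter g x b k
    rw [h1, hgb, ← hk] at h5
    exact h5.symm
  · rw [Function.iterate_fixed hb] at hk
    rw [hk, hgb]

/-- the two positions of a dart, if it follows the line of `v` at `u` -/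
structure KaL (v y : K.V) (u : D.U) : Prop where
  hv : ¬ EllV D K v
  ne : P.N v u ≠ P.M v u
  Ny : P.N y u = P.M v u
  p1 : pos Q v y u = tk Q (.l u (P.N v u) v)
  p2 : pos Q y v u = tk Q (.l u (P.M v u) v)

theorem ka_L (v y : K.V) (u : D.U) (hv : ¬ EllV D K v) (ne : P.N v u ≠ P.M v u)
    (Ny : P.N y u = P.M v u) (h1 : tk Q (.e u (P.N v u) v y) = tk Q (.l u (P.N v u) v))
    (h2 : tk Q (.e (P.M v u) u v y) = tk Q (.l (P.M v u) u v)) : KaL P Q v y u := by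
  refine ⟨hv, ne, Ny, ?_, ?_⟩
  · unfold pos
    rw [if_neg ((P.hyp v hv).1 u)]
    exact h1
  · unfold pos
    rw [if_neg (by rw [Ny]; exact (P.hyp v hv).2.1 u), Ny, ka_tk_e, h2]
    exact ka_tk P Q (TRel.swL _ _ _)

theorem ka_iter_axis {v : K.V} (hv : ¬ EllV D K v) {a : D.U} (ha : P.N v a ≠ P.M v a) (k : ℕ) :
    P.N v ((P.N v)^[k] a) ≠ P.M v ((P.N v)^[k] a) ∧
      P.M v ((P.N v)^[k + 1] a) = (P.N v)^[k] a := by
  induction k with
  | zero => exact ⟨ha, ka_MN hv ha⟩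
  | succ k ih =>
    obtain ⟨h1, h2⟩ := ih
    have h3 : P.N v ((P.N v)^[k + 1] a) ≠ P.M v ((P.N v)^[k + 1] a) := by
      rw [h2, Function.iterate_succ_apply']
      exact ka_fwd (P.fN v) (ka_adjN (P.fN v) ((P.hyp v hv).1 _)) rfl
    refine ⟨h3, ?_⟩
    have h4 := ka_MN hv h3
    rw [Function.iterate_succ_apply' _ (k + 1)]
    exact h4

theorem ka_L_deep {v y : K.V} (hadj : K.adj v y) (hF : Fr K v y) (hN : P.N v ≠ P.N y)
    (hv : ¬ EllV D K v) {u : D.U} (k : ℕ) (hu : u = (P.N v)^[k + 1] (Q.Q v y))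
    (Ny : P.N y u = P.M v u) : KaL P Q v y u := by
  obtain ⟨-, hax⟩ := Q.hyp v y hadj hF hv hN
  obtain ⟨h1, -⟩ := ka_iter_axis P hv hax (k + 1)
  obtain ⟨-, h2⟩ := ka_iter_axis P hv hax k
  rw [← hu] at h1 h2
  refine ka_L P Q v y u hv h1 Ny ?_ ?_
  · have := ka_tk P Q (TRel.t2 (Q := Q) v y (k + 1) hadj hF hv hN)
    rw [Function.iterate_succ_apply' _ (k + 1), ← hu] at this
    exact this
  · have := ka_tk P Q (TRel.t2 (Q := Q) v y k hadj hF hv hN)
    rw [← hu, ← h2] at this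
    exact this

theorem ka_L_tf {v y : K.V} (hadj : K.adj v y) (hF : ¬ Fr K v y) (hN : P.N v ≠ P.N y)
    (hv : ¬ EllV D K v) (hy : ¬ EllV D K y) (hNM : P.N y = P.M v) {u : D.U}
    (hu : P.N v u ≠ P.M v u) : KaL P Q v y u := by
  refine ka_L P Q v y u hv hu (by rw [hNM]) ?_ ?_
  · exact ka_tk P Q (TRel.t4 (Q := Q) v y _ _ hadj hN hF hv hy (ka_Ax1 hv hu))
  · exact ka_tk P Q (TRel.t4 (Q := Q) v y _ _ hadj hN hF hv hy (ka_Ax2 hv hu))

theorem ka_line1 {v v' : K.V} (h : TF D K v v') (h1 : P.N v' = P.M v) (h2 : P.M v' = P.N v)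
    {u w : D.U} (ha : Ax P v u w) : tk Q (.l u w v) = tk Q (.l u w v') := by
  obtain ⟨hadj, hv, hv', hF⟩ := h
  have hN : P.N v ≠ P.N v' := by
    intro e
    obtain ⟨u, hu⟩ := (P.hyp v hv).2.2.2
    apply hu
    rw [e, h1]
  have ha' : Ax P v' w u := by
    obtain ⟨e1, e2, e3⟩ := ha
    refine ⟨by rw [h1]; exact e2, by rw [h2]; exact e1, ?_⟩
    rw [h1, e2]
    rw [e1] at e3
    exact fun e => e3 e.symm
  have e1 := ka_tk P Q (TRel.t4 (Q := Q) v v' u w hadj hN hF hv hv' ha)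
  have e2 := ka_tk P Q (TRel.t4 (Q := Q) v' v w u (K.symm _ _ hadj) hN.symm
    (fun h => hF h.symm) hv' hv ha')
  rw [← e1, ka_tk_e, e2]
  exact ka_tk P Q (TRel.swL _ _ _)

theorem ka_line2 {v v' : K.V} (h : TF D K v v') (h1 : P.N v' = P.M v) (h2 : P.M v' = P.N v)
    {u w : D.U} (ha : Ax2 P v u w) : tk Q (.l u w v) = tk Q (.l u w v') := by
  rcases ha with ha | ha
  · exact ka_line1 P Q h h1 h2 ha
  · rw [ka_tk P Q (TRel.swL u w v), ka_line1 P Q h h1 h2 ha]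
    exact ka_tk P Q (TRel.swL _ _ _)

theorem ka_Ax2_swap {v v' : K.V} {u w : D.U} (ha : Ax2 P v u w)
    (h : (P.N v' = P.N v ∧ P.M v' = P.M v) ∨ (P.N v' = P.M v ∧ P.M v' = P.N v)) :
    Ax2 P v' u w := by
  rcases h with ⟨h1, h2⟩ | ⟨h1, h2⟩
  · unfold Ax2 Ax at *
    rw [h1, h2]
    exact ha
  · unfold Ax2 Ax at *
    rw [h1, h2]
    rcases ha with ⟨e1, e2, e3⟩ | ⟨e1, e2, e3⟩
    · right
      refine ⟨e2, e1, ?_⟩
      rw [e2]
      rw [e1] at e3
      exact fun e => e3 e.symm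
    · left
      refine ⟨e2, e1, ?_⟩
      rw [e2]
      rw [e1] at e3
      exact fun e => e3 e.symm

theorem ka_line (hCLU : ST_CLU) (hnd : ND D K P) {v v' : K.V} (hv : ¬ EllV D K v)
    (h : v' ∈ cl D K v) {u w : D.U} (ha : Ax2 P v u w) :
    tk Q (.l u w v) = tk Q (.l u w v') := by
  have key : ∀ v', Relation.ReflTransGen (TF D K) v v' →
      tk Q (.l u w v) = tk Q (.l u w v') := by
    intro v' h
    induction h with
    | refl => rfl
    | @tail a b hab hbc ih =>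
      obtain ⟨ha1, ha2, ha3, -⟩ := hCLU G D K P hnd v a hv hab
      have hb : b ∈ cl D K a := Relation.ReflTransGen.single hbc
      obtain ⟨hb1, hb2, hb3, hb4, -⟩ := hCLU G D K P hnd a b ha1 hb
      obtain ⟨e1, e2⟩ := hb4 hbc
      rw [ih]
      exact ka_line2 P Q hbc e1 e2 (ka_Ax2_swap P ha ha3)
  exact key v' h

/-- the line dart of a cluster of infinite type is not free -/
theorem ka_lineFT (hCLU : ST_CLU) (hnd : ND D K P) {v : K.V} (hv : ¬ EllV D K v) {u w : D.U}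
    (ne : P.N v u ≠ P.M v u) (hw : w = P.N v u ∨ w = P.M v u)
    (hfree : ∀ g : G, g • tk Q (.l u (P.N v u) v) = tk Q (.l u (P.N v u) v) →
      g • tk Q (.l u (P.M v u) v) = tk Q (.l u (P.M v u) v) → g = 1) : FT D K v u w := by
  intro g h1 h2 h3
  have hgv : g • v ∈ cl D K v := by
    rw [← h1]
    exact ⟨v, Relation.ReflTransGen.refl, rfl⟩
  obtain ⟨-, -, c3, -⟩ := hCLU G D K P hnd v (g • v) hv hgv
  have e1 := P.eN g v u
  have e2 := P.eM g v u
  have h4 : g • P.N v u = P.N v u ∧ g • P.M v u = P.M v u := by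
    rcases c3 with ⟨c, c'⟩ | ⟨c, c'⟩
    · rw [c, h2] at e1
      rw [c', h2] at e2
      exact ⟨e1.symm, e2.symm⟩
    · rw [c, h2] at e1
      rw [c', h2] at e2
      rcases hw with rfl | rfl
      · rw [h3] at e1
        exact absurd e1.symm ne
      · rw [h3] at e2
        exact absurd e2 ne
  have A1 : Ax2 P v u (P.N v u) := Or.inl (ka_Ax1 hv ne)
  have A2 : Ax2 P v u (P.M v u) := Or.inr (ka_Ax2 hv ne)
  apply hfree g
  · rw [← tk_smul, Tk.smul_l, h2, h4.1]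
    exact (ka_line P Q hCLU hnd hv hgv A1).symm
  · rw [← tk_smul, Tk.smul_l, h2, h4.2]
    exact (ka_line P Q hCLU hnd hv hgv A2).symm

/-- the two sides of a band are the same dart -/
theorem ka_band {x y z : K.V} {w : D.U} (ht : K.tri x y z) (h1 : P.N y w = P.N z w)
    (h2 : P.N y w ≠ w) (h3 : P.N x w ≠ P.N y w) :
    pos Q x y w = pos Q x z w ∧ pos Q y x w = pos Q z x w := by
  have hadj : D.T.Adj w (P.N y w) := ka_adjN (P.fN y) h2
  constructor
  · unfold pos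
    by_cases h : P.N x w = w
    · rw [if_pos h, if_pos h]
    · rw [if_neg h, if_neg h]
      have hadj' : D.T.Adj w (P.N x w) := ka_adjN (P.fN x) h
      refine ka_tk P Q (TRel.t1 (Q := Q) x y z w (P.N x w) ht hadj' rfl ?_ ?_)
      · exact ka_back (P.fN y) hadj' (fun e => h3 e.symm)
      · exact ka_back (P.fN z) hadj' (fun e => h3 (e.symm.trans h1.symm))
  · unfold pos
    rw [if_neg h2, if_neg (by rw [← h1]; exact h2), ka_tk_e, ka_tk_e P Q _ _ z x, ← h1]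
    exact ka_tk P Q (TRel.t1 (Q := Q) x y z (P.N y w) w ht hadj.symm
      (ka_back (P.fN x) hadj h3) rfl h1.symm)

end cxs

section graphs

variable {G : Type} [Group G] {A Y : Type} [MulAction G A] [MulAction G Y] {NY : Set Y}
  {s t : Y → Option A} {NX : Set A}

theorem ka_step_smul (h : GrH NY s t G NX) (g : G) {p q : A} (hs : stepR NY s t p q) :
    stepR NY s t (g • p) (g • q) := by
  obtain ⟨y, hy, h1⟩ := hs
  refine ⟨g • y, h.smulY g y hy, ?_⟩
  rw [h.sE g y hy, h.tE g y hy]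
  rcases h1 with ⟨h2, h3⟩ | ⟨h2, h3⟩
  · left
    rw [h2, h3]
    exact ⟨rfl, rfl⟩
  · right
    rw [h2, h3]
    exact ⟨rfl, rfl⟩

theorem ka_comp_smul (h : GrH NY s t G NX) (g : G) (p : A) :
    compR NY s t (g • p) = g • compR NY s t p := by
  have key : ∀ (g : G) (p q : A), Relation.ReflTransGen (stepR NY s t) p q →
      Relation.ReflTransGen (stepR NY s t) (g • p) (g • q) := by
    intro g p q hpq
    induction hpq with
    | refl => exact Relation.ReflTransGen.refl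
    | tail _ h2 ih => exact ih.tail (ka_step_smul h g h2)
  ext q
  rw [Set.mem_smul_set_iff_inv_smul_mem]
  constructor
  · intro hq
    have := key g⁻¹ _ _ hq
    rw [inv_smul_smul] at this
    exact this
  · intro hq
    have := key g _ _ hq
    rw [smul_inv_smul] at this
    exact this

theorem ka_finOrb_comp (h : GrH NY s t G NX) :
    FinOrb G {C : Set A | ∃ p ∈ NX, goodR NY s t p ∧ C = compR NY s t p} := by
  refine (FinOrb.map (fun p => compR NY s t p) h.finX (fun g x _ _ => ka_comp_smul h g x) ?_).1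
  rintro C ⟨p, hp, -, rfl⟩
  exact ⟨p, hp, 1, (one_smul _ _).symm⟩

end graphs

section main

variable {G : Type} [Group G] (X : Ctx G)

/-- the dart of a node -/
def KaR : X.NS → AV X.Q × AV X.Q → Prop
  | .inl (x, y, u), d => d = (pos X.Q x y u, pos X.Q y x u)
  | .inr (C, u, w), d => ∃ v w', C = cl X.D X.K v ∧ ¬ EllV X.D X.K v ∧
      X.P.N v u ≠ X.P.M v u ∧
      ((w = X.P.M v u ∧ w' = X.P.N v u) ∨ (w = X.P.N v u ∧ w' = X.P.M v u)) ∧
      d = (tk X.Q (.l u w' v), tk X.Q (.l u w v))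

def KaF (d : AV X.Q × AV X.Q) : Prop := ∀ g : G, g • d.1 = d.1 → g • d.2 = d.2 → g = 1

variable {X}

theorem KaR_fun (hCLU : ST_CLU) {n : X.NS} {d d' : AV X.Q × AV X.Q} (h : KaR X n d)
    (h' : KaR X n d') : d = d' := by
  rcases n with ⟨x, y, u⟩ | ⟨C, u, w⟩
  · have h1 : d = (pos X.Q x y u, pos X.Q y x u) := h
    have h2 : d' = (pos X.Q x y u, pos X.Q y x u) := h'
    rw [h1, h2]
  · obtain ⟨v, w', hC, hv, ne, hw, rfl⟩ := h
    obtain ⟨v₁, w₁, hC₁, hv₁, ne₁, hw₁, rfl⟩ := h'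
    have hm : v₁ ∈ cl X.D X.K v := by
      rw [← hC, hC₁]
      exact Relation.ReflTransGen.refl
    obtain ⟨-, -, c3, -⟩ := hCLU G X.D X.K X.P X.nd v v₁ hv hm
    have hww : w' = w₁ := by
      rcases c3 with ⟨c, c'⟩ | ⟨c, c'⟩
      · rw [c, c'] at hw₁
        rcases hw with ⟨a, b⟩ | ⟨a, b⟩ <;> rcases hw₁ with ⟨a', b'⟩ | ⟨a', b'⟩
        · rw [b, b']
        · exact absurd (a'.symm.trans a) ne
        · exact absurd (a.symm.trans a') ne
        · rw [b, b']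
      · rw [c, c'] at hw₁
        rcases hw with ⟨a, b⟩ | ⟨a, b⟩ <;> rcases hw₁ with ⟨a', b'⟩ | ⟨a', b'⟩
        · exact absurd (a'.symm.trans a) ne
        · rw [b, b']
        · rw [b, b']
        · exact absurd (a.symm.trans a') ne
    subst hww
    have A1 : Ax2 X.P v u (X.P.N v u) := Or.inl (ka_Ax1 hv ne)
    have A2 : Ax2 X.P v u (X.P.M v u) := Or.inr (ka_Ax2 hv ne)
    have A3 : Ax2 X.P v u w ∧ Ax2 X.P v u w' := by
      rcases hw with ⟨a, b⟩ | ⟨a, b⟩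
      · rw [a, b]; exact ⟨A2, A1⟩
      · rw [a, b]; exact ⟨A1, A2⟩
    rw [ka_line X.P X.Q hCLU X.nd hv hm A3.1, ka_line X.P X.Q hCLU X.nd hv hm A3.2]

theorem KaR_smul (hCLU : ST_CLU) (g : G) {n : X.NS} {d : AV X.Q × AV X.Q} (h : KaR X n d) :
    KaR X (g • n) (g • d) := by
  rcases n with ⟨x, y, u⟩ | ⟨C, u, w⟩
  · have h1 : d = (pos X.Q x y u, pos X.Q y x u) := h
    show g • d = (pos X.Q (g • x) (g • y) (g • u), pos X.Q (g • y) (g • x) (g • u))
    rw [h1, pos_smul, pos_smul]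
    rfl
  · obtain ⟨v, w', hC, hv, ne, hw, rfl⟩ := h
    obtain ⟨-, -, -, -, -, c6⟩ := hCLU G X.D X.K X.P X.nd v v hv Relation.ReflTransGen.refl
    refine ⟨g • v, g • w', ?_, ?_, ?_, ?_, rfl⟩
    · show g • C = _
      rw [hC, c6]
    · exact fun h => hv ((EllV_smul_iff g).1 h)
    · rw [X.P.eN, X.P.eM]
      exact fun e => ne (smul_left_cancel g e)
    · rw [X.P.eN, X.P.eM]
      rcases hw with ⟨a, b⟩ | ⟨a, b⟩
      · left; rw [← a, ← b]; exact ⟨rfl, rfl⟩
      · right; rw [← a, ← b]; exact ⟨rfl, rfl⟩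

/-- segN through a line -/
theorem ka_segL (hCLU : ST_CLU) {v : X.V} {u w w' : X.U} (hv : ¬ EllV X.D X.K v)
    (ne : X.P.N v u ≠ X.P.M v u)
    (hw : (w = X.P.M v u ∧ w' = X.P.N v u) ∨ (w = X.P.N v u ∧ w' = X.P.M v u)) :
    (FT X.D X.K v u w → (Sum.inr (cl X.D X.K v, u, w) : X.NS) ∈ X.NSs ∧
      KaR X (.inr (cl X.D X.K v, u, w)) (tk X.Q (.l u w' v), tk X.Q (.l u w v))) ∧
    (¬ FT X.D X.K v u w → ¬ KaF X (tk X.Q (.l u w' v), tk X.Q (.l u w v))) := by
  have A1 : Ax2 X.P v u (X.P.N v u) := Or.inl (ka_Ax1 hv ne)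
  have A2 : Ax2 X.P v u (X.P.M v u) := Or.inr (ka_Ax2 hv ne)
  refine ⟨fun hF => ⟨⟨v, rfl, hv, ?_, hF⟩, ⟨v, w', rfl, hv, ne, hw, rfl⟩⟩, ?_⟩
  · rcases hw with ⟨a, b⟩ | ⟨a, b⟩
    · rw [a]; exact A2
    · rw [a]; exact A1
  · intro hF hfree
    apply hF
    rcases hw with ⟨rfl, rfl⟩ | ⟨rfl, rfl⟩
    · exact ka_lineFT X.P X.Q hCLU X.nd hv ne (Or.inr rfl) (fun g h1 h2 => hfree g h1 h2)
    · exact ka_lineFT X.P X.Q hCLU X.nd hv ne (Or.inl rfl) (fun g h1 h2 => hfree g h2 h1)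

/-- the node of a dart and the dart of the node -/
theorem ka_seg (hCLU : ST_CLU) (hHON : ST_HON) (hTFC : ST_TFC) (hTFD : ST_TFD) {x y : X.V}
    {u : X.U} (hadj : X.K.adj x y) (hN : X.P.N x ≠ X.P.N y) (hI : OnI (X.P.N x) (X.P.N y) u) :
    (∀ n, X.segN x y u = some n → n ∈ X.NSs ∧ KaR X n (pos X.Q x y u, pos X.Q y x u)) ∧
    (X.segN x y u = none → ¬ KaF X (pos X.Q x y u, pos X.Q y x u)) := by
  classical
  by_cases hF : Fr X.K x y
  · have h : X.FC2 x y := ⟨hadj, hF, hN⟩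
    have h' : X.FC2 y x := ⟨X.K.symm _ _ hadj, hF.symm, hN.symm⟩
    obtain ⟨h1, h2, h3, h4, h5, h6, h7, h8, h9, h10, h11⟩ := hHON G X x y h
    obtain ⟨-, h2', h3', -, -, -, -, -, h9', -, -⟩ := hHON G X y x h'
    rcases (h1 u).1 hI with hH | hD | hD
    · have e : X.segN x y u = some (.inl (x, y, u)) := by
        unfold Ctx.segN
        rw [if_pos ⟨hF, hH⟩]
      rw [e]
      refine ⟨?_, fun h => absurd h (by simp)⟩
      rintro n hn
      obtain rfl := Option.some.inj hn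
      exact ⟨⟨h, hI, hH⟩, rfl⟩
    · obtain ⟨hx, k, hk⟩ := hD
      obtain ⟨ne, hNy⟩ := h9 u ⟨hx, k, hk⟩
      have L := ka_L_deep X.P X.Q hadj hF hN hx k hk hNy
      have e : X.segN x y u = if FT X.D X.K x u (X.P.N y u) then
          some (.inr (cl X.D X.K x, u, X.P.N y u)) else none := by
        unfold Ctx.segN
        rw [if_neg (fun hc => h2 u hc.2 ⟨hx, k, hk⟩), if_pos ⟨hx, Or.inr ⟨hx, k, hk⟩⟩]
      obtain ⟨s1, s2⟩ := ka_segL hCLU (w := X.P.N y u) (w' := X.P.N x u) hx ne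
        (Or.inl ⟨hNy, rfl⟩)
      rw [e, L.p1, L.p2]
      rw [hNy] at s1 s2 ⊢
      by_cases hFT : FT X.D X.K x u (X.P.M x u)
      · rw [if_pos hFT]
        refine ⟨?_, fun h => absurd h (by simp)⟩
        rintro n hn
        obtain rfl := Option.some.inj hn
        exact s1 hFT
      · rw [if_neg hFT]
        exact ⟨fun n hn => absurd hn (by simp), fun _ => s2 hFT⟩
    · obtain ⟨hy, k, hk⟩ := hD
      obtain ⟨ne, hNx⟩ := h9' u ⟨hy, k, hk⟩
      have L := ka_L_deep X.P X.Q (X.K.symm _ _ hadj) hF.symm hN.symm hy k hk hNx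
      have e : X.segN x y u = if FT X.D X.K y u (X.P.N y u) then
          some (.inr (cl X.D X.K y, u, X.P.N y u)) else none := by
        unfold Ctx.segN
        rw [if_neg (fun hc => h2' u ((h4 u).1 hc.2) ⟨hy, k, hk⟩), if_neg ?_,
          if_pos ⟨hy, ⟨hy, k, hk⟩⟩]
        rintro ⟨-, hc | hc⟩
        · exact hc hF
        · exact h3 u hc ⟨hy, k, hk⟩
      obtain ⟨s1, s2⟩ := ka_segL hCLU (w := X.P.N y u) (w' := X.P.M y u) hy ne
        (Or.inr ⟨rfl, rfl⟩)
      rw [e, L.p1, L.p2]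
      by_cases hFT : FT X.D X.K y u (X.P.N y u)
      · rw [if_pos hFT]
        refine ⟨?_, fun h => absurd h (by simp)⟩
        rintro n hn
        obtain rfl := Option.some.inj hn
        exact s1 hFT
      · rw [if_neg hFT]
        exact ⟨fun n hn => absurd hn (by simp), fun _ => s2 hFT⟩
  · by_cases hx : EllV X.D X.K x
    · have hy : EllV X.D X.K y := by
        by_contra hy
        exact hF (ka_fr X.P hTFD hx hy)
      have e : X.segN x y u = none := by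
        unfold Ctx.segN
        rw [if_neg (fun hc => hF hc.1), if_neg (fun hc => hc.1 hx), if_neg (fun hc => hc.1 hy)]
      rw [e]
      refine ⟨fun n hn => absurd hn (by simp), fun _ hfree => hF ?_⟩
      intro g h1 h2
      have h3 := ka_fixI X.P hTFC hx hy h1 h2 hI
      apply hfree g
      · show g • pos X.Q x y u = _
        rw [← pos_smul, h1, h2, h3]
      · show g • pos X.Q y x u = _
        rw [← pos_smul, h1, h2, h3]
    · have hy : ¬ EllV X.D X.K y := by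
        intro hy
        exact hF (ka_fr X.P hTFD hy hx).symm
      have hTF : TF X.D X.K x y := ⟨hadj, hx, hy, hF⟩
      obtain ⟨-, -, -, c4, -⟩ := hCLU G X.D X.K X.P X.nd x y hx (Relation.ReflTransGen.single hTF)
      obtain ⟨c4, c4'⟩ := c4 hTF
      have ne : X.P.N x u ≠ X.P.M x u := by
        intro e
        exact (X.P.hyp x hx).1 u (hI (by rw [c4]; exact e))
      have hNy : X.P.N y u = X.P.M x u := by rw [c4]
      have L := ka_L_tf X.P X.Q hadj hF hN hx hy c4 ne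
      have e : X.segN x y u = if FT X.D X.K x u (X.P.N y u) then
          some (.inr (cl X.D X.K x, u, X.P.N y u)) else none := by
        unfold Ctx.segN
        rw [if_neg (fun hc => hF hc.1), if_pos ⟨hx, Or.inl hF⟩]
      obtain ⟨s1, s2⟩ := ka_segL hCLU (w := X.P.N y u) (w' := X.P.N x u) hx ne
        (Or.inl ⟨hNy, rfl⟩)
      rw [e, L.p1, L.p2]
      rw [hNy] at s1 s2 ⊢
      by_cases hFT : FT X.D X.K x u (X.P.M x u)
      · rw [if_pos hFT]
        refine ⟨?_, fun h => absurd h (by simp)⟩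
        rintro n hn
        obtain rfl := Option.some.inj hn
        exact s1 hFT
      · rw [if_neg hFT]
        exact ⟨fun n hn => absurd hn (by simp), fun _ => s2 hFT⟩

/-- the common dart of the two ends of a band -/
theorem ka_bandR (hCLU : ST_CLU) (hHON : ST_HON) (hTFC : ST_TFC) (hTFD : ST_TFD)
    {b : Band G X} (hb : b ∈ X.BN) : ∃ d : AV X.Q × AV X.Q,
    ((∀ n, X.sS b = some n → n ∈ X.NSs ∧ KaR X n d) ∧ (X.sS b = none → ¬ KaF X d)) ∧
    ((∀ n, X.tS b = some n → n ∈ X.NSs ∧ KaR X n d) ∧ (X.tS b = none → ¬ KaF X d)) := by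
  obtain ⟨x, y, z, w, o⟩ := b
  obtain ⟨ht, h1, h2, h3, -⟩ := hb
  simp only at ht h1 h2 h3
  obtain ⟨t1, t2, t3, t4, t5⟩ := X.K.tri_perm ht
  have a1 : X.K.adj x y := X.K.tri_adj _ _ _ ht
  have a2 : X.K.adj x z := X.K.tri_adj _ _ _ t4
  have n1 : X.P.N x ≠ X.P.N y := fun e => h3 (by rw [e])
  have n2 : X.P.N x ≠ X.P.N z := fun e => h3 (by rw [e, h1])
  have i1 : OnI (X.P.N x) (X.P.N y) w := fun e => absurd e h3
  have i2 : OnI (X.P.N x) (X.P.N z) w := fun e => absurd (e.trans h1.symm) h3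
  have i1' : OnI (X.P.N y) (X.P.N x) w := fun e => absurd e.symm h3
  have i2' : OnI (X.P.N z) (X.P.N x) w := fun e => absurd (e.symm.trans h1.symm) h3
  obtain ⟨b1, b2⟩ := ka_band X.P X.Q ht h1 h2 h3
  cases o
  · refine ⟨(pos X.Q y x w, pos X.Q x y w), ?_, ?_⟩
    · exact ka_seg hCLU hHON hTFC hTFD (X.K.symm _ _ a1) n1.symm i1'
    · rw [b1, b2]
      exact ka_seg hCLU hHON hTFC hTFD (X.K.symm _ _ a2) n2.symm i2'
  · refine ⟨(pos X.Q x y w, pos X.Q y x w), ?_, ?_⟩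
    · exact ka_seg hCLU hHON hTFC hTFD a1 n1 i1
    · rw [b1, b2]
      exact ka_seg hCLU hHON hTFC hTFD a2 n2 i2

/-- nodes with a free dart have good components -/
theorem ka_good (hCLU : ST_CLU) (hHON : ST_HON) (hTFC : ST_TFC) (hTFD : ST_TFD)
    (hGRS : ST_GRS) {n : X.NS} (hn : n ∈ X.NSs) {d : AV X.Q × AV X.Q} (hd : KaR X n d)
    (hf : KaF X d) : (∀ m ∈ compR X.BN X.sS X.tS n, m ∈ X.NSs ∧ KaR X m d) ∧
      goodR X.BN X.sS X.tS n := by
  have key : ∀ m, Relation.ReflTransGen (stepR X.BN X.sS X.tS) n m → m ∈ X.NSs ∧ KaR X m d := by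
    intro m hm
    induction hm with
    | refl => exact ⟨hn, hd⟩
    | @tail a c hac hcd ih =>
      obtain ⟨b, hb, hbc⟩ := hcd
      obtain ⟨d', ⟨s1, -⟩, ⟨t1, -⟩⟩ := ka_bandR hCLU hHON hTFC hTFD hb
      rcases hbc with ⟨e1, e2⟩ | ⟨e1, e2⟩
      · have e3 := KaR_fun hCLU ih.2 (s1 _ e1).2
        rw [e3]
        exact t1 _ e2
      · have e3 := KaR_fun hCLU ih.2 (t1 _ e2).2
        rw [e3]
        exact s1 _ e1
  refine ⟨key, ?_, ?_⟩
  · have hfin : {m : X.NS | m ∈ X.NSs ∧ KaR X m d}.Finite := by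
      refine Set.Finite.of_finite_image (f := fun m : X.NS => orbit G m) ?_ ?_
      · exact (hGRS G X).finX.subset (Set.image_mono (fun m hm => hm.1))
      · rintro m ⟨hm1, hm2⟩ m' ⟨hm1', hm2'⟩ he
        obtain ⟨g, rfl⟩ := orbit_eq_iff'.1 he
        have e := KaR_fun hCLU hm2' (KaR_smul hCLU g hm2)
        have e1 : g • d.1 = d.1 := congrArg Prod.fst e.symm
        have e2 : g • d.2 = d.2 := congrArg Prod.snd e.symm
        rw [hf g e1 e2, one_smul]
    exact hfin.subset key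
  · intro q hq b hb
    obtain ⟨-, hqd⟩ := key q hq
    obtain ⟨d', ⟨s1, s2⟩, ⟨t1, t2⟩⟩ := ka_bandR hCLU hHON hTFC hTFD hb
    constructor
    · intro e
      have e3 := KaR_fun hCLU hqd (s1 _ e).2
      cases ht : X.tS b with
      | none =>
        exact absurd (e3 ▸ hf) (t2 ht)
      | some m => rfl
    · intro e
      have e3 := KaR_fun hCLU hqd (t1 _ e).2
      cases ht : X.sS b with
      | none =>
        exact absurd (e3 ▸ hf) (s2 ht)
      | some m => rfl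

end main

theorem st_KA (hCLU : ST_CLU) (hHON : ST_HON) (hTFC : ST_TFC) (hTFD : ST_TFD)
    (hGRS : ST_GRS) : ST_KA := by
  intro G _ X
  set S : Set (AV X.Q × AV X.Q) := {p | aadj X.Q p.1 p.2 ∧
      ∀ g : G, g • p.1 = p.1 → g • p.2 = p.2 → g = 1} with hS
  set S1 : Set (AV X.Q × AV X.Q) := {p | KaF X p ∧ ∃ x y u, X.K.adj x y ∧ X.P.N x = X.P.N y ∧
    X.P.N x u = u ∧ p = (Sum.inl x, Sum.inl y)} with hS1
  set S2 : Set (AV X.Q × AV X.Q) := {p | KaF X p ∧ ∃ n ∈ X.NSs, KaR X n p} with hS2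
  have hsub : S ⊆ S1 ∪ S2 := by
    rintro ⟨p, q⟩ ⟨hadj, hfree⟩
    rcases hadj with ⟨x, y, u, h1, h2, h3, h4, h5⟩ | ⟨v, u, h1, h2, h3⟩
    · simp only at h4 h5
      subst h4
      subst h5
      by_cases hN : X.P.N x = X.P.N y
      · left
        have h6 : X.P.N x u = u := h3 (by rw [hN])
        have h7 : X.P.N y u = u := by rw [← hN]; exact h6
        refine ⟨hfree, x, y, u, h1, hN, h6, ?_⟩
        unfold pos
        rw [if_pos h6, if_pos h7]
      · right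
        obtain ⟨s1, s2⟩ := ka_seg hCLU hHON hTFC hTFD h1 hN h3
        refine ⟨hfree, ?_⟩
        cases hs : X.segN x y u with
        | none => exact absurd hfree (s2 hs)
        | some n => exact ⟨n, (s1 n hs).1, (s1 n hs).2⟩
    · right
      refine ⟨hfree, ?_⟩
      rcases h3 with ⟨h4, h5⟩ | ⟨h4, h5⟩
      · simp only at h4 h5
        subst h4
        subst h5
        obtain ⟨s1, s2⟩ := ka_segL hCLU (w := X.P.M v u) (w' := X.P.N v u) h1 h2
          (Or.inl ⟨rfl, rfl⟩)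
        by_cases hFT : FT X.D X.K v u (X.P.M v u)
        · exact ⟨_, (s1 hFT).1, (s1 hFT).2⟩
        · exact absurd hfree (s2 hFT)
      · simp only at h4 h5
        subst h4
        subst h5
        obtain ⟨s1, s2⟩ := ka_segL hCLU (w := X.P.N v u) (w' := X.P.M v u) h1 h2
          (Or.inr ⟨rfl, rfl⟩)
        by_cases hFT : FT X.D X.K v u (X.P.N v u)
        · exact ⟨_, (s1 hFT).1, (s1 hFT).2⟩
        · exact absurd hfree (s2 hFT)
  have f1 : FinOrb G {p : X.V × X.V | X.K.adj p.1 p.2 ∧ Fr X.K p.1 p.2 ∧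
      X.P.N p.1 = X.P.N p.2} := X.K.finE.mono (fun p h => h.1)
  obtain ⟨g1, l1⟩ : FinOrb G S1 ∧ oc G S1 ≤ oc G {p : X.V × X.V | X.K.adj p.1 p.2 ∧
      Fr X.K p.1 p.2 ∧ X.P.N p.1 = X.P.N p.2} := by
    refine oc_le_rel (fun (p : AV X.Q × AV X.Q) (q : X.V × X.V) =>
      p = (Sum.inl q.1, Sum.inl q.2)) f1 ?_ ?_
    · rintro p ⟨hf, x, y, u, h1, h2, h3, rfl⟩
      refine ⟨(x, y), ⟨h1, ?_, h2⟩, rfl⟩
      intro g e1 e2
      apply hf g
      · show (Sum.inl (g • x) : AV X.Q) = Sum.inl x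
        rw [show g • x = x from e1]
      · show (Sum.inl (g • y) : AV X.Q) = Sum.inl y
        rw [show g • y = y from e2]
    · rintro _ _ _ _ q _ q' _ rfl rfl g rfl
      exact ⟨g, rfl⟩
  obtain ⟨g2, l2⟩ : FinOrb G S2 ∧ oc G S2 ≤ cR X.BN X.sS X.tS G X.NSs := by
    refine oc_le_rel (fun (p : AV X.Q × AV X.Q) (C : Set X.NS) =>
      ∃ n ∈ X.NSs, KaR X n p ∧ C = compR X.BN X.sS X.tS n) (ka_finOrb_comp (hGRS G X)) ?_ ?_
    · rintro p ⟨hf, n, hn, hr⟩
      exact ⟨_, ⟨n, hn, (ka_good hCLU hHON hTFC hTFD hGRS hn hr hf).2, rfl⟩, n, hn, hr, rfl⟩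
    · rintro p ⟨hf, -⟩ p' ⟨hf', -⟩ C _ C' _ ⟨n, hn, hr, rfl⟩ ⟨n', hn', hr', rfl⟩ g hg
      refine ⟨g, ?_⟩
      have h1 : g • n ∈ compR X.BN X.sS X.tS n' := by
        rw [← hg]
        exact ⟨n, Relation.ReflTransGen.refl, rfl⟩
      obtain ⟨-, h2⟩ := (ka_good hCLU hHON hTFC hTFD hGRS hn' hr' hf').1 _ h1
      exact KaR_fun hCLU (KaR_smul hCLU g hr) h2
  calc oc G S ≤ oc G (S1 ∪ S2) := oc_mono (g1.union g2) hsub
    _ ≤ oc G S1 + oc G S2 := by
      unfold oc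
      rw [Set.image_union]
      exact Set.ncard_union_le _ _
    _ ≤ _ := Nat.add_le_add l1 l2

end Pool.Agent.Helper93.HZ
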